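import Pool.Agent.P.MP_eb4d96_pr.Defs

namespace Pool.Agent.P.MP_eb4d96_pr

open scoped Matrix
open Finset

set_option linter.unusedSectionVars false

variable {V : Type} [Fintype V] [DecidableEq V] (G : SimpleGraph V) [DecidableRel G.Adj]

/-- Remove x. -/
def del (x : V) (I : Indep G) : Indep G :=
  ⟨I.1.erase x, I.2.mono (by simp)⟩

/-- Add x if possible, and otherwise remove it. -/
def add (x : V) (I : Indep G) : Indep G :=
  if h : ∀ y ∈ I.1, ¬ G.Adj x y then
    ⟨insert x I.1, by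
      have hI := I.2
      rw [SimpleGraph.isIndepSet_iff] at hI ⊢
      rw [coe_insert]
      refine hI.insert ?_
      intro y hy _
      exact ⟨h y hy, fun h' => h y hy h'.symm⟩⟩
  else del G x I

theorem mem_del {x y : V} {I : Indep G} : y ∈ (del G x I).1 ↔ y ≠ x ∧ y ∈ I.1 := by
  simp [del]

theorem mem_add {x y : V} {I : Indep G} :
    y ∈ (add G x I).1 ↔ (y = x ∧ ∀ z ∈ I.1, ¬ G.Adj x z) ∨ (y ≠ x ∧ y ∈ I.1) := by
  unfold add
  split_ifs with h
  · simp only [mem_insert]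
    by_cases hy : y = x
    · simp [hy]; exact h
    · simp [hy]
  · rw [mem_del]
    simp [h]

theorem glauber_mulVec (w : V → ℂ) (hw : ∀ x, 1 + w x ≠ 0) (f : Indep G → ℂ) (I : Indep G) :
    (glauber G w *ᵥ f) I = (Fintype.card V : ℂ)⁻¹ *
      ∑ x : V, (1 / (1 + w x) * f (del G x I) + w x / (1 + w x) * f (add G x I)) := by
  simp only [Matrix.mulVec, dotProduct, glauber]
  simp_rw [mul_assoc, ← mul_sum, sum_mul]
  rw [sum_comm]
  congr 1
  refine sum_congr rfl fun x _ => ?_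
  have hdel : ∀ J : Indep G, J.1 = I.1.erase x ↔ J = del G x I := fun J =>
    ⟨fun h => Subtype.ext h, fun h => by rw [h]; rfl⟩
  by_cases h : ∀ y ∈ I.1, ¬ G.Adj x y
  · have hadd : ∀ J : Indep G, J.1 = insert x I.1 ↔ J = add G x I := fun J => by
      have : (add G x I).1 = insert x I.1 := by unfold add; rw [dif_pos h]
      exact ⟨fun h => Subtype.ext (h.trans this.symm), fun h => by rw [h, this]⟩
    simp only [if_pos h, hdel, hadd, add_mul, sum_add_distrib, ite_mul, zero_mul, sum_ite_eq',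
      mem_univ, if_true]
    ring
  · have hadd : add G x I = del G x I := by unfold add; rw [dif_neg h]
    simp only [if_neg h, hdel, hadd, ite_mul, zero_mul, sum_ite_eq', mem_univ, if_true]
    have := hw x
    field_simp

theorem glauber_mulVec_one [Nonempty V] (w : V → ℂ) (hw : ∀ x, 1 + w x ≠ 0) :
    glauber G w *ᵥ 1 = 1 := by
  funext I
  rw [glauber_mulVec G w hw]
  have : ∀ x : V, 1 / (1 + w x) * (1 : Indep G → ℂ) (del G x I) +
      w x / (1 + w x) * (1 : Indep G → ℂ) (add G x I) = 1 := fun x => by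
    have := hw x
    simp only [Pi.one_apply]
    field_simp
  simp only [this]
  have hn : (Fintype.card V : ℂ) ≠ 0 := by exact_mod_cast Fintype.card_ne_zero
  simp [hn]

/-- The function f depends only on the occupation of the vertices in A. -/
def Dep (A : Finset V) (f : Indep G → ℂ) : Prop :=
  ∀ I J : Indep G, (∀ y ∈ A, y ∈ I.1 ↔ y ∈ J.1) → f I = f J

variable {G}

theorem Dep.del {A : Finset V} {f : Indep G → ℂ} (h : Dep G A f) (x : V) :
    Dep G (A.erase x) (fun I => f (del G x I)) := by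
  intro I J hIJ
  apply h
  intro y hy
  rw [mem_del, mem_del]
  by_cases hyx : y = x
  · simp [hyx]
  · rw [hIJ y (mem_erase.2 ⟨hyx, hy⟩)]

theorem Dep.add {A : Finset V} {f : Indep G → ℂ} (h : Dep G A f) (x : V) :
    Dep G (A.erase x ∪ G.neighborFinset x) (fun I => f (add G x I)) := by
  intro I J hIJ
  apply h
  intro y hy
  rw [mem_add, mem_add]
  have hfree : (∀ z ∈ I.1, ¬ G.Adj x z) ↔ (∀ z ∈ J.1, ¬ G.Adj x z) := by
    constructor
    · intro h1 z hz hadj
      exact h1 z ((hIJ z (mem_union_right _ (by simpa using hadj))).2 hz) hadj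
    · intro h1 z hz hadj
      exact h1 z ((hIJ z (mem_union_right _ (by simpa using hadj))).1 hz) hadj
  by_cases hyx : y = x
  · simp only [hyx, true_and, ne_eq, not_true, false_and, or_false]
    exact hfree
  · rw [hIJ y (mem_union_left _ (mem_erase.2 ⟨hyx, hy⟩))]
    simp [hyx]

theorem Dep.del_eq {A : Finset V} {f : Indep G → ℂ} (h : Dep G A f) {x : V} (hx : x ∉ A)
    (I : Indep G) : f (MP_eb4d96_pr.del G x I) = f I := by
  apply h
  intro y hy
  have : y ≠ x := fun e => hx (e ▸ hy)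
  rw [mem_del]
  simp [this]

theorem Dep.add_eq {A : Finset V} {f : Indep G → ℂ} (h : Dep G A f) {x : V} (hx : x ∉ A)
    (I : Indep G) : f (MP_eb4d96_pr.add G x I) = f I := by
  apply h
  intro y hy
  have : y ≠ x := fun e => hx (e ▸ hy)
  rw [mem_add]
  simp [this]

/-- One step of the dynamics contracts the weighted marginal total-variation norm. -/
theorem step [Nonempty V] (w : V → ℂ) (hw : ∀ x, 1 + w x ≠ 0) (ν : (Indep G → ℂ) →ₗ[ℂ] ℂ)
    (W : Finset V → ℝ) (hW0 : ∀ A, 0 < W A) (θ K : ℝ) (hθ : θ ≤ 1) (hK0 : 0 ≤ K)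
    (hW : ∀ A : Finset V, ∀ x ∈ A, ‖1 / (1 + w x)‖ * W (A.erase x) +
      ‖w x / (1 + w x)‖ * W (A.erase x ∪ G.neighborFinset x) ≤ θ * W A)
    (hK : ∀ A f, Dep G A f → (∀ I, ‖f I‖ ≤ 1) → ‖ν f‖ ≤ K * W A)
    (A : Finset V) (hA : A.Nonempty) (f : Indep G → ℂ) (hf : Dep G A f) (hf1 : ∀ I, ‖f I‖ ≤ 1) :
    ‖ν (glauber G w *ᵥ f)‖ ≤ (1 - (1 - θ) / Fintype.card V) * K * W A := by
  have hn : (0 : ℝ) < Fintype.card V := by exact_mod_cast Fintype.card_pos
  have e : glauber G w *ᵥ f = (Fintype.card V : ℂ)⁻¹ •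
      ∑ x : V, ((1 / (1 + w x)) • (fun I => f (del G x I)) +
        (w x / (1 + w x)) • (fun I => f (add G x I))) := by
    funext I
    rw [glauber_mulVec G w hw]
    simp [Finset.sum_apply]
  have key : ∀ x : V, ‖ν ((1 / (1 + w x)) • (fun I => f (del G x I)) +
        (w x / (1 + w x)) • (fun I => f (add G x I)))‖ ≤
      K * W A - if x ∈ A then (1 - θ) * (K * W A) else 0 := by
    intro x
    split_ifs with hx
    · rw [map_add, map_smul, map_smul]
      refine (norm_add_le _ _).trans ?_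
      rw [norm_smul, norm_smul]
      have h1 := hK _ _ (hf.del x) (fun I => hf1 _)
      have h2 := hK _ _ (hf.add x) (fun I => hf1 _)
      have h3 := hW A x hx
      calc _ ≤ ‖1 / (1 + w x)‖ * (K * W (A.erase x)) +
            ‖w x / (1 + w x)‖ * (K * W (A.erase x ∪ G.neighborFinset x)) := by gcongr
        _ = K * (‖1 / (1 + w x)‖ * W (A.erase x) +
            ‖w x / (1 + w x)‖ * W (A.erase x ∪ G.neighborFinset x)) := by ring
        _ ≤ K * (θ * W A) := by gcongr
        _ = _ := by ring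
    · have : (1 / (1 + w x)) • (fun I => f (del G x I)) +
          (w x / (1 + w x)) • (fun I => f (add G x I)) = f := by
        funext I
        have := hw x
        simp only [Pi.add_apply, Pi.smul_apply, smul_eq_mul, hf.del_eq hx, hf.add_eq hx]
        field_simp
      rw [this, sub_zero]
      exact hK A f hf hf1
  rw [e, map_smul, map_sum, norm_smul, norm_inv, Complex.norm_natCast]
  have h1 := (norm_sum_le _ _).trans (sum_le_sum fun x (_ : x ∈ univ) => key x)
  rw [sum_sub_distrib, sum_ite_mem, univ_inter, sum_const, sum_const, card_univ, nsmul_eq_mul,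
    nsmul_eq_mul] at h1
  have hA1 : (1 : ℝ) ≤ A.card := by exact_mod_cast hA.card_pos
  have hKW : 0 ≤ (1 - θ) * (K * W A) := mul_nonneg (by linarith) (mul_nonneg hK0 (hW0 A).le)
  rw [inv_mul_le_iff₀ hn]
  refine h1.trans ?_
  have : (Fintype.card V : ℝ) * ((1 - (1 - θ) / Fintype.card V) * K * W A) =
      Fintype.card V * (K * W A) - (1 - θ) * (K * W A) := by
    field_simp
  rw [this]
  nlinarith

theorem eigen_bound [Nonempty V] (w : V → ℂ) (hw : ∀ x, 1 + w x ≠ 0)
    (W : Finset V → ℝ) (hW0 : ∀ A, 0 < W A) (θ : ℝ) (hθ0 : 0 ≤ θ) (hθ : θ ≤ 1)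
    (hW : ∀ A : Finset V, ∀ x ∈ A, ‖1 / (1 + w x)‖ * W (A.erase x) +
      ‖w x / (1 + w x)‖ * W (A.erase x ∪ G.neighborFinset x) ≤ θ * W A)
    (ν : (Indep G → ℂ) →ₗ[ℂ] ℂ) (hν0 : ν ≠ 0) (hν1 : ν 1 = 0) (μ : ℂ)
    (hμ : ∀ f, ν (glauber G w *ᵥ f) = μ * ν f) :
    ‖μ‖ ≤ 1 - (1 - θ) / Fintype.card V := by
  set c : ℝ := 1 - (1 - θ) / Fintype.card V with hc
  have hn : (1 : ℝ) ≤ Fintype.card V := by exact_mod_cast Fintype.card_pos
  have hc0 : 0 ≤ c := by
    rw [hc, sub_nonneg, div_le_one (by linarith)]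
    linarith
  by_contra hlt
  push Not at hlt
  have hμ0 : 0 < ‖μ‖ := lt_of_le_of_lt hc0 hlt
  set r : ℝ := c / ‖μ‖ with hr
  have hr0 : 0 ≤ r := div_nonneg hc0 hμ0.le
  have hr1 : r < 1 := (div_lt_one hμ0).2 hlt
  -- an initial bound
  obtain ⟨K, hK0, hK⟩ : ∃ K : ℝ, 0 ≤ K ∧
      ∀ A f, Dep G A f → (∀ I, ‖f I‖ ≤ 1) → ‖ν f‖ ≤ K * W A := by
    obtain ⟨A0, -, hA0⟩ := exists_min_image univ W univ_nonempty
    refine ⟨‖LinearMap.toContinuousLinearMap ν‖ / W A0,
      div_nonneg (norm_nonneg _) (hW0 _).le, fun A f _ hf1 => ?_⟩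
    have h1 : ‖ν f‖ ≤ ‖LinearMap.toContinuousLinearMap ν‖ * ‖f‖ :=
      (LinearMap.toContinuousLinearMap ν).le_opNorm f
    have h2 : ‖f‖ ≤ 1 := (pi_norm_le_iff_of_nonneg zero_le_one).2 hf1
    have h3 : 1 ≤ W A / W A0 := (one_le_div (hW0 _)).2 (hA0 A (mem_univ _))
    calc ‖ν f‖ ≤ ‖LinearMap.toContinuousLinearMap ν‖ * (W A / W A0) := by
          refine h1.trans ?_
          gcongr
          linarith
      _ = _ := by ring
  have iter : ∀ k : ℕ, ∀ A f, Dep G A f → (∀ I, ‖f I‖ ≤ 1) → ‖ν f‖ ≤ (r ^ k * K) * W A := by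
    intro k
    induction k with
    | zero => simpa using hK
    | succ k ih =>
      intro A f hf hf1
      have hrK : 0 ≤ r ^ k * K := by positivity
      rcases A.eq_empty_or_nonempty with rfl | hA
      · have : f = f ⟨∅, by simp⟩ • (1 : Indep G → ℂ) := by
          funext I
          simp only [Pi.smul_apply, Pi.one_apply, smul_eq_mul, mul_one]
          exact hf _ _ (by simp)
        rw [this, map_smul, hν1, smul_zero, norm_zero]
        have := hW0 ∅
        positivity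
      · have h := step w hw ν W hW0 θ _ hθ hrK hW ih A hA f hf hf1
        rw [hμ, norm_mul, ← hc] at h
        rw [← le_div_iff₀' hμ0] at h
        refine h.trans (le_of_eq ?_)
        rw [hr]
        ring
  have zero : ∀ f : Indep G → ℂ, (∀ I, ‖f I‖ ≤ 1) → ν f = 0 := by
    intro f hf1
    have hf : Dep G univ f := fun I J h => by
      congr 1
      exact Subtype.ext (Finset.ext fun y => h y (mem_univ _))
    have ht : Filter.Tendsto (fun k : ℕ => (r ^ k * K) * W univ) Filter.atTop (nhds 0) := by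
      have := ((tendsto_pow_atTop_nhds_zero_of_lt_one hr0 hr1).mul_const K).mul_const (W univ)
      simpa using this
    exact norm_le_zero_iff.1 (ge_of_tendsto' ht fun k => iter k univ f hf hf1)
  apply hν0
  refine (Pi.basisFun ℂ (Indep G)).ext fun I => ?_
  rw [LinearMap.zero_apply]
  apply zero
  intro J
  rw [Pi.basisFun_apply, Pi.single_apply]
  split_ifs <;> simp

/-- An eigenvalue of the induced map has a left eigenvector killing the constants. -/
theorem exists_left_eigen {Ω : Type} [Fintype Ω] [DecidableEq Ω] (P : Matrix Ω Ω ℂ)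
    (h : P *ᵥ 1 = 1) (μ : ℂ)
    (hμ : μ ∈ spectrum ℂ (induced P h)) :
    ∃ ν : (Ω → ℂ) →ₗ[ℂ] ℂ, ν ≠ 0 ∧ ν 1 = 0 ∧ ∀ f, ν (P *ᵥ f) = μ * ν f := by
  set T : Module.End ℂ ((Ω → ℂ) ⧸ consts Ω) := induced P h with hT
  rw [spectrum.mem_iff] at hμ
  have hns : LinearMap.range (algebraMap ℂ (Module.End ℂ ((Ω → ℂ) ⧸ consts Ω)) μ - T) < ⊤ := by
    rw [lt_top_iff_ne_top]
    intro hr
    exact hμ ((LinearMap.isUnit_iff_range_eq_top _).2 hr)
  obtain ⟨l, hl0, hl⟩ := Submodule.exists_dual_map_eq_bot_of_lt_top hns inferInstance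
  refine ⟨l.comp (consts Ω).mkQ, ?_, ?_, ?_⟩
  · intro h0
    apply hl0
    refine LinearMap.ext fun v => ?_
    obtain ⟨f, rfl⟩ := (consts Ω).mkQ_surjective v
    exact LinearMap.congr_fun h0 f
  · have : (consts Ω).mkQ 1 = 0 :=
      (Submodule.Quotient.mk_eq_zero _).2 (Submodule.mem_span_singleton_self _)
    rw [LinearMap.comp_apply, this, map_zero]
  · intro f
    have h1 : l ((algebraMap ℂ (Module.End ℂ ((Ω → ℂ) ⧸ consts Ω)) μ - T) ((consts Ω).mkQ f))
        = 0 := by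
      rw [← Submodule.mem_bot ℂ, ← hl]
      exact Submodule.mem_map_of_mem (LinearMap.mem_range_self _ _)
    have h2 : T ((consts Ω).mkQ f) = (consts Ω).mkQ (P *ᵥ f) := by
      rw [hT, induced, Submodule.mkQ_apply, Submodule.mapQ_apply, Matrix.toLin'_apply]
      rfl
    rw [LinearMap.sub_apply, map_sub, h2, Module.algebraMap_end_apply, map_smul, smul_eq_mul,
      sub_eq_zero] at h1
    exact h1.symm

theorem spr_lt_one [Nonempty V] (w : V → ℂ) (hw : ∀ x, 1 + w x ≠ 0)
    (W : Finset V → ℝ) (hW0 : ∀ A, 0 < W A) (θ : ℝ) (hθ0 : 0 ≤ θ) (hθ : θ < 1)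
    (hW : ∀ A : Finset V, ∀ x ∈ A, ‖1 / (1 + w x)‖ * W (A.erase x) +
      ‖w x / (1 + w x)‖ * W (A.erase x ∪ G.neighborFinset x) ≤ θ * W A) :
    spr (glauber G w) (glauber_mulVec_one G w hw) < 1 := by
  have hn : (1 : ℝ) ≤ Fintype.card V := by exact_mod_cast Fintype.card_pos
  have hc1 : 1 - (1 - θ) / Fintype.card V < 1 := by
    have : 0 < (1 - θ) / Fintype.card V := div_pos (by linarith) (by linarith)
    linarith
  refine lt_of_le_of_lt ?_ (ENNReal.ofReal_lt_one.2 hc1)
  unfold spr spectralRadius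
  refine iSup₂_le fun μ hμ => ?_
  obtain ⟨ν, h0, h1, h2⟩ := exists_left_eigen _ (glauber_mulVec_one G w hw) μ hμ
  have := eigen_bound w hw W hW0 θ hθ0 hθ.le hW ν h0 h1 μ h2
  rw [← ENNReal.ofReal_coe_nnreal]
  exact ENNReal.ofReal_le_ofReal this

end Pool.Agent.P.MP_eb4d96_pr
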