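import Mathlib

namespace Pool.Agent.P.MP_eb4d96_pr

open scoped Matrix

/-- The state space: the independent sets of the finite graph G. -/
abbrev Indep {V : Type} (G : SimpleGraph V) : Type :=
  {I : Finset V // G.IsIndepSet (I : Set V)}

/-- The transition matrix of the single-site heat-bath (Glauber) dynamics of the hard-core
model with complex fugacities w: from I pick x uniformly; if no neighbour of x lies in I, move to
I ∪ {x} with weight w x / (1 + w x) and to I minus {x} with weight 1 / (1 + w x); otherwise move to
I minus {x}. -/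
noncomputable def glauber {V : Type} [Fintype V] [DecidableEq V] (G : SimpleGraph V)
    [DecidableRel G.Adj] (w : V → ℂ) : Matrix (Indep G) (Indep G) ℂ :=
  fun I J => (Fintype.card V : ℂ)⁻¹ * ∑ x : V,
    if ∀ y ∈ I.1, ¬ G.Adj x y then
      (if J.1 = insert x I.1 then w x / (1 + w x) else 0) +
        (if J.1 = I.1.erase x then 1 / (1 + w x) else 0)
    else if J.1 = I.1.erase x then 1 else 0

/-- The constant functions. -/
noncomputable def consts (Ω : Type) : Submodule ℂ (Ω → ℂ) :=
  Submodule.span ℂ {(1 : Ω → ℂ)}

theorem consts_le_comap {Ω : Type} [Fintype Ω] [DecidableEq Ω] (P : Matrix Ω Ω ℂ)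
    (h : P *ᵥ 1 = 1) : consts Ω ≤ (consts Ω).comap (Matrix.toLin' P) := by
  rw [consts, Submodule.span_le, Set.singleton_subset_iff, SetLike.mem_coe, Submodule.mem_comap,
    Matrix.toLin'_apply, h]
  exact Submodule.mem_span_singleton_self _

/-- For a matrix P fixing the constant function 1, the linear map induced by f ↦ P f on the
quotient of functions modulo constants. -/
noncomputable def induced {Ω : Type} [Fintype Ω] [DecidableEq Ω] (P : Matrix Ω Ω ℂ)
    (h : P *ᵥ 1 = 1) : Module.End ℂ ((Ω → ℂ) ⧸ consts Ω) :=
  (consts Ω).mapQ (consts Ω) (Matrix.toLin' P) (consts_le_comap P h)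

/-- spr(P): the spectral radius of the induced map on functions modulo constants. -/
noncomputable def spr {Ω : Type} [Fintype Ω] [DecidableEq Ω] (P : Matrix Ω Ω ℂ)
    (h : P *ᵥ 1 = 1) : ENNReal :=
  spectralRadius ℂ (induced P h)

end Pool.Agent.P.MP_eb4d96_pr
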