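import Pool.Agent.P.MP_eb4d96_pr.Contract

namespace Pool.Agent.P.MP_eb4d96_pr

open Finset

set_option linter.unusedSectionVars false

variable {V : Type} [Fintype V] [DecidableEq V] (G : SimpleGraph V) [DecidableRel G.Adj]

/-- Vertices of A with a neighbour in A. -/
def sSet (A : Finset V) : Finset V := A.filter fun z => ∃ y ∈ A, G.Adj z y

/-- Vertices with at least two neighbours in A. -/
def rSet (A : Finset V) : Finset V := univ.filter fun z => 2 ≤ #(G.neighborFinset z ∩ A)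

/-- Neighbours of x outside B that have a neighbour in B. -/
def mSet (x : V) (B : Finset V) : Finset V :=
  (G.neighborFinset x).filter fun y => y ∉ B ∧ ∃ v ∈ B, G.Adj y v

theorem sSet_erase (A : Finset V) (x : V) :
    #(sSet G A) ≤ #(sSet G (A.erase x)) + 2 * #(G.neighborFinset x ∩ A.erase x) := by
  rcases (G.neighborFinset x ∩ A.erase x).eq_empty_or_nonempty with h | h
  · have : sSet G A ⊆ sSet G (A.erase x) := by
      intro z hz
      simp only [sSet, mem_filter, mem_erase] at hz ⊢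
      obtain ⟨hzA, y, hyA, hzy⟩ := hz
      have hz : z ≠ x := by
        rintro rfl
        have : y ∈ G.neighborFinset z ∩ A.erase z := by
          simp [hzy, hyA, hzy.ne']
        rw [h] at this
        simp at this
      have hy : y ≠ x := by
        rintro rfl
        have : z ∈ G.neighborFinset y ∩ A.erase y := by
          simp [hzy.symm, hzA, hzy.ne]
        rw [h] at this
        simp at this
      exact ⟨⟨hz, hzA⟩, y, ⟨hy, hyA⟩, hzy⟩
    have := card_le_card this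
    omega
  · have hsub : sSet G A ⊆ insert x (sSet G (A.erase x) ∪ (G.neighborFinset x ∩ A.erase x)) := by
      intro z hz
      simp only [sSet, mem_filter, mem_erase, mem_insert, mem_union, mem_inter,
        SimpleGraph.mem_neighborFinset] at hz ⊢
      obtain ⟨hzA, y, hyA, hzy⟩ := hz
      by_cases hz : z = x
      · exact Or.inl hz
      · right
        by_cases hy : y = x
        · subst hy
          exact Or.inr ⟨hzy.symm, hz, hzA⟩
        · exact Or.inl ⟨⟨hz, hzA⟩, y, ⟨hy, hyA⟩, hzy⟩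
    have h1 := card_le_card hsub
    have h2 := card_insert_le x (sSet G (A.erase x) ∪ (G.neighborFinset x ∩ A.erase x))
    have h3 := card_union_le (sSet G (A.erase x)) (G.neighborFinset x ∩ A.erase x)
    have h4 := h.card_pos
    omega

theorem rSet_erase (A : Finset V) (x : V) :
    #(rSet G A) ≤ #(rSet G (A.erase x)) + #(G.neighborFinset x ∩ A.erase x) +
      #(mSet G x (A.erase x)) := by
  have hsub : rSet G A ⊆ (rSet G (A.erase x) ∪ (G.neighborFinset x ∩ A.erase x)) ∪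
      mSet G x (A.erase x) := by
    intro z hz
    simp only [rSet, mem_filter, mem_univ, true_and] at hz
    by_cases hzx : G.Adj x z
    · by_cases hzB : z ∈ A.erase x
      · exact mem_union_left _ (mem_union_right _ (mem_inter.2 ⟨by simpa using hzx, hzB⟩))
      · refine mem_union_right _ ?_
        obtain ⟨v, hv, hvx⟩ := exists_mem_ne (lt_of_lt_of_le one_lt_two hz) x
        rw [mem_inter, SimpleGraph.mem_neighborFinset] at hv
        simp only [mSet, mem_filter, SimpleGraph.mem_neighborFinset]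
        exact ⟨hzx, hzB, v, mem_erase.2 ⟨hvx, hv.2⟩, hv.1⟩
    · refine mem_union_left _ (mem_union_left _ ?_)
      have : G.neighborFinset z ∩ A.erase x = G.neighborFinset z ∩ A := by
        ext v
        simp only [mem_inter, SimpleGraph.mem_neighborFinset, mem_erase]
        constructor
        · rintro ⟨h1, -, h2⟩
          exact ⟨h1, h2⟩
        · rintro ⟨h1, h2⟩
          refine ⟨h1, ?_, h2⟩
          rintro rfl
          exact hzx h1.symm
      simp only [rSet, mem_filter, mem_univ, true_and, this]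
      exact hz
  have h1 := card_le_card hsub
  have h2 := card_union_le (rSet G (A.erase x) ∪ (G.neighborFinset x ∩ A.erase x))
    (mSet G x (A.erase x))
  have h3 := card_union_le (rSet G (A.erase x)) (G.neighborFinset x ∩ A.erase x)
  omega

theorem sSet_union (B : Finset V) (x : V) :
    #(sSet G B) + #(mSet G x B) ≤ #(sSet G (B ∪ G.neighborFinset x)) := by
  rw [← card_union_of_disjoint]
  · apply card_le_card
    intro z hz
    simp only [sSet, mSet, mem_filter, mem_union] at hz ⊢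
    rcases hz with ⟨h1, y, hy, h2⟩ | ⟨h1, -, y, hy, h2⟩
    · exact ⟨Or.inl h1, y, Or.inl hy, h2⟩
    · exact ⟨Or.inr h1, y, Or.inl hy, h2⟩
  · rw [disjoint_left]
    intro z hz hz'
    simp only [sSet, mSet, mem_filter] at hz hz'
    exact hz'.2.1 hz.1

theorem rSet_mono {B C : Finset V} (h : B ⊆ C) : rSet G B ⊆ rSet G C := by
  intro z hz
  simp only [rSet, mem_filter, mem_univ, true_and] at hz ⊢
  exact hz.trans (card_le_card (inter_subset_inter_left h))

theorem rSet_union (B : Finset V) (x : V) :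
    #(rSet G B) + (if #(G.neighborFinset x ∩ B) = 0 ∧ 2 ≤ #(G.neighborFinset x) then 1 else 0) ≤
      #(rSet G (B ∪ G.neighborFinset x)) := by
  split_ifs with h
  · have hx : x ∉ rSet G B := by
      simp only [rSet, mem_filter, mem_univ, true_and, h.1]
      omega
    rw [← card_insert_of_notMem hx]
    apply card_le_card
    rw [insert_subset_iff]
    refine ⟨?_, rSet_mono G subset_union_left⟩
    simp only [rSet, mem_filter, mem_univ, true_and]
    rw [inter_eq_left.2 subset_union_right]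
    exact h.2
  · exact card_le_card (rSet_mono G subset_union_left)

/-- The potential. -/
noncomputable def pot (D : ℝ) (A : Finset V) : ℝ :=
  #A - 1 / (6 * D) * #(sSet G A) - 1 / (6 * D ^ 2) * #(rSet G A)

theorem drift_real (D j m d e p : ℝ) (hD : 2 ≤ D) (hj0 : 0 ≤ j) (hm0 : 0 ≤ m) (hjd : j ≤ d)
    (hmd : m ≤ d) (hdD : d ≤ D) (he0 : 0 ≤ e) (he1 : e ≤ 1)
    (hcase : 1 ≤ j ∨ d + 1 ≤ D ∨ e = 1) (hp0 : 0 ≤ p) (hp1 : p ≤ 1 / D) :
    let u1 := -1 + 1 / (6 * D) * (2 * j) + 1 / (6 * D ^ 2) * (j + m)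
    let u2 := u1 + ((d - j) - 1 / (6 * D) * m - 1 / (6 * D ^ 2) * e)
    |u1| ≤ D ∧ |u2| ≤ D ∧ (1 - p) * u1 + p * u2 ≤ -(1 / (6 * D ^ 3)) := by
  intro u1 u2
  have hD0 : 0 < D := by linarith
  set a : ℝ := 1 / D with ha
  have ha0 : 0 < a := by positivity
  have haD : a * D = 1 := by rw [ha]; field_simp
  have ha2 : a ≤ 1 / 2 := by rw [ha]; exact one_div_le_one_div_of_le (by norm_num) hD
  have e1 : 1 / (6 * D) = a / 6 := by rw [ha]; field_simp
  have e2 : 1 / (6 * D ^ 2) = a ^ 2 / 6 := by rw [ha]; field_simp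
  have e3 : 1 / (6 * D ^ 3) = a ^ 3 / 6 := by rw [ha]; field_simp
  have haj : a * j ≤ 1 := by nlinarith
  have ham : a * m ≤ 1 := by nlinarith
  have had : a * d ≤ 1 := by nlinarith
  have haj0 : 0 ≤ a * j := by positivity
  have ham0 : 0 ≤ a * m := by positivity
  have hu1 : u1 = -1 + (a * j) / 3 + a * (a * j + a * m) / 6 := by
    simp only [u1, e1, e2]; ring
  have hg : u2 = u1 + ((d - j) - (a * m) / 6 - a ^ 2 * e / 6) := by
    simp only [u2, e1, e2]; ring
  have hx0 : 0 ≤ a * (a * j + a * m) := by positivity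
  have hx1 : a * (a * j + a * m) ≤ 1 := by nlinarith
  have hu1l : -1 ≤ u1 := by rw [hu1]; linarith
  have hu1u : u1 ≤ -1 / 2 := by rw [hu1]; linarith
  have hae0 : 0 ≤ a ^ 2 * e := by positivity
  have hae1 : a ^ 2 * e ≤ 1 := by nlinarith
  have ha3 : a ^ 3 ≤ a / 2 := by nlinarith
  refine ⟨abs_le.2 ⟨by linarith, by linarith⟩, abs_le.2 ⟨by rw [hg]; linarith, by rw [hg]; linarith⟩,
    ?_⟩
  rw [e3]
  set g : ℝ := (d - j) - (a * m) / 6 - a ^ 2 * e / 6 with hgdef
  have : (1 - p) * u1 + p * u2 = u1 + p * g := by rw [hg]; ring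
  rw [this]
  rcases le_total g 0 with hg0 | hg0
  · have : p * g ≤ 0 := mul_nonpos_of_nonneg_of_nonpos hp0 hg0
    linarith
  · have h1 : p * g ≤ a * g := by gcongr
    have h2 : u1 + a * g = -1 + a * d - (a * j) * (2 / 3 - a / 6) - a ^ 3 * e / 6 := by
      rw [hu1, hgdef]; ring
    have h3 : (a * j) / 2 ≤ (a * j) * (2 / 3 - a / 6) := by nlinarith
    have h4 : 0 ≤ a ^ 3 * e := by positivity
    rcases hcase with h | h | h
    · have : a ≤ a * j := by nlinarith
      linarith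
    · have : a * d + a ≤ 1 := by nlinarith
      linarith
    · rw [h] at h2
      linarith

theorem pot_drift (Δ : ℕ) (hΔ : 2 ≤ Δ) (hG : G.maxDegree ≤ Δ) (A : Finset V) (x : V) (hx : x ∈ A) :
    ∃ u1 u2 : ℝ, |u1| ≤ Δ ∧ |u2| ≤ Δ ∧ pot G Δ (A.erase x) ≤ pot G Δ A + u1 ∧
      pot G Δ (A.erase x ∪ G.neighborFinset x) ≤ pot G Δ A + u2 ∧
      ∀ p : ℝ, 0 ≤ p → p ≤ 1 / Δ → (1 - p) * u1 + p * u2 ≤ -(1 / (6 * (Δ : ℝ) ^ 3)) := by
  set B := A.erase x with hB
  set N := G.neighborFinset x with hN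
  set j := #(N ∩ B) with hj
  set m := #(mSet G x B) with hm
  set d := #N with hd
  set e : ℕ := if j = 0 ∧ 2 ≤ d then 1 else 0 with he
  have hD : (2 : ℝ) ≤ Δ := by exact_mod_cast hΔ
  have hjd : j ≤ d := card_le_card inter_subset_left
  have hmd : m ≤ d := card_le_card (filter_subset _ _)
  have hdD : d ≤ Δ := (G.degree_le_maxDegree x).trans hG
  have he1 : e ≤ 1 := by rw [he]; split_ifs <;> simp
  have hcase : (1 : ℝ) ≤ j ∨ (d : ℝ) + 1 ≤ Δ ∨ (e : ℝ) = 1 := by
    by_cases h1 : j = 0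
    · by_cases h2 : d = Δ
      · right; right
        rw [he, if_pos ⟨h1, by omega⟩]
        simp
      · right; left
        exact_mod_cast (by omega : d + 1 ≤ Δ)
    · left
      exact_mod_cast (by omega : 1 ≤ j)
  have key := fun p hp0 hp1 => drift_real Δ j m d e p hD (Nat.cast_nonneg _) (Nat.cast_nonneg _)
    (by exact_mod_cast hjd) (by exact_mod_cast hmd) (by exact_mod_cast hdD) (Nat.cast_nonneg _)
    (by exact_mod_cast he1) hcase hp0 hp1
  have k0 := key 0 le_rfl (by positivity)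
  have c1 : (#A : ℝ) = #B + 1 := by
    rw [hB, ← card_erase_add_one hx]; push_cast; ring
  have c2 : (#(sSet G A) : ℝ) ≤ #(sSet G B) + 2 * j := by exact_mod_cast sSet_erase G A x
  have c3 : (#(rSet G A) : ℝ) ≤ #(rSet G B) + j + m := by exact_mod_cast rSet_erase G A x
  have c4 : (#(B ∪ N) : ℝ) + j = #B + d := by
    rw [hj, inter_comm]
    exact_mod_cast card_union_add_card_inter B N
  have c5 : (#(sSet G B) : ℝ) + m ≤ #(sSet G (B ∪ N)) := by exact_mod_cast sSet_union G B x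
  have c6 : (#(rSet G B) : ℝ) + e ≤ #(rSet G (B ∪ N)) := by exact_mod_cast rSet_union G B x
  have hs0 : (0 : ℝ) ≤ 1 / (6 * Δ) := by positivity
  have hr0 : (0 : ℝ) ≤ 1 / (6 * (Δ : ℝ) ^ 2) := by positivity
  have d2 := mul_le_mul_of_nonneg_left c2 hs0
  have d3 := mul_le_mul_of_nonneg_left c3 hr0
  have d5 := mul_le_mul_of_nonneg_left c5 hs0
  have d6 := mul_le_mul_of_nonneg_left c6 hr0
  refine ⟨_, _, k0.1, k0.2.1, ?_, ?_, fun p hp0 hp1 => (key p hp0 hp1).2.2⟩
  · unfold pot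
    linarith
  · unfold pot
    linarith

theorem exp_mix (D c p u1 u2 a b : ℝ) (hD : 2 ≤ D) (hc0 : 0 < c) (hc1 : c ≤ 1) (hp0 : 0 ≤ p)
    (hp1 : p ≤ 1) (h1 : |u1| ≤ D) (h2 : |u2| ≤ D) (hdrift : (1 - p) * u1 + p * u2 ≤ -c)
    (ha : a ≤ 1 - p + c ^ 2 / (48 * D ^ 2)) (hb : b ≤ p + c ^ 2 / (48 * D ^ 2)) :
    a * Real.exp (c / (2 * D ^ 2) * u1) + b * Real.exp (c / (2 * D ^ 2) * u2) ≤
      1 - c ^ 2 / (8 * D ^ 2) := by
  have hD0 : 0 < D := by linarith
  set t : ℝ := c / (2 * D ^ 2) with ht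
  have ht0 : 0 < t := by positivity
  have htD : t * D ≤ 1 := by
    rw [ht, div_mul_eq_mul_div, div_le_one (by positivity)]
    nlinarith
  have bound : ∀ u : ℝ, |u| ≤ D → Real.exp (t * u) ≤ 1 + t * u + (t * D) ^ 2 ∧
      Real.exp (t * u) ≤ 3 := by
    intro u hu
    have h3 : |t * u| ≤ t * D := by rw [abs_mul, abs_of_pos ht0]; gcongr
    have h4 := Real.abs_exp_sub_one_sub_id_le (h3.trans htD)
    have h5 : (t * u) ^ 2 ≤ (t * D) ^ 2 := by
      rw [← sq_abs]; gcongr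
    have h6 := (abs_le.1 h4).2
    have h7 := (abs_le.1 h3).2
    have h8 : (t * D) ^ 2 ≤ 1 := by
      have : 0 ≤ t * D := by positivity
      nlinarith
    constructor <;> linarith
  obtain ⟨b1, b1'⟩ := bound u1 h1
  obtain ⟨b2, b2'⟩ := bound u2 h2
  set η : ℝ := c ^ 2 / (48 * D ^ 2) with hη
  have hη0 : 0 ≤ η := by positivity
  have e1 : (t * D) ^ 2 = 12 * η := by rw [ht, hη]; field_simp; ring
  have e2 : t * c = 24 * η := by rw [ht, hη]; field_simp; ring
  have e3 : c ^ 2 / (8 * D ^ 2) = 6 * η := by rw [hη]; field_simp; ring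
  rw [e3]
  have x1 := Real.exp_pos (t * u1)
  have x2 := Real.exp_pos (t * u2)
  calc a * Real.exp (t * u1) + b * Real.exp (t * u2)
      ≤ (1 - p + η) * Real.exp (t * u1) + (p + η) * Real.exp (t * u2) := by gcongr
    _ = (1 - p) * Real.exp (t * u1) + p * Real.exp (t * u2) +
          η * (Real.exp (t * u1) + Real.exp (t * u2)) := by ring
    _ ≤ (1 - p) * (1 + t * u1 + (t * D) ^ 2) + p * (1 + t * u2 + (t * D) ^ 2) + η * (3 + 3) := by
        have : 0 ≤ 1 - p := by linarith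
        gcongr
    _ = 1 + t * ((1 - p) * u1 + p * u2) + (t * D) ^ 2 + 6 * η := by ring
    _ ≤ 1 + t * (-c) + (t * D) ^ 2 + 6 * η := by gcongr
    _ = 1 - 6 * η := by rw [e1, mul_neg, e2]; ring

theorem near_real (D η τ : ℝ) (w : ℂ) (hD : 2 ≤ D) (hη1 : η ≤ 1) (hτ0 : 0 ≤ τ)
    (hτ1 : τ ≤ 1 / (D - 1)) (hw : ‖w - τ‖ < η / 2) :
    1 + w ≠ 0 ∧ ∃ p : ℝ, 0 ≤ p ∧ p ≤ 1 / D ∧ ‖1 / (1 + w)‖ ≤ 1 - p + η ∧ ‖w / (1 + w)‖ ≤ p + η := by
  have hτ : (0 : ℝ) < 1 + τ := by linarith
  have hτc : (1 + τ : ℂ) ≠ 0 := by exact_mod_cast hτ.ne'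
  have hn : ‖(1 + τ : ℂ)‖ = 1 + τ := by
    rw [show (1 + τ : ℂ) = ((1 + τ : ℝ) : ℂ) by push_cast; ring, Complex.norm_real,
      Real.norm_of_nonneg hτ.le]
  have hlow : 1 / 2 ≤ ‖1 + w‖ := by
    have : ‖(1 + τ : ℂ)‖ ≤ ‖1 + w‖ + ‖w - τ‖ := by
      calc ‖(1 + τ : ℂ)‖ = ‖(1 + w) - (w - τ)‖ := by congr 1; ring
        _ ≤ _ := norm_sub_le _ _
    linarith
  have hw0 : 1 + w ≠ 0 := by
    intro h
    rw [h, norm_zero] at hlow
    linarith
  refine ⟨hw0, τ / (1 + τ), by positivity, ?_, ?_, ?_⟩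
  · rw [div_le_div_iff₀ hτ (by linarith)]
    rw [le_div_iff₀ (by linarith)] at hτ1
    linarith
  all_goals
    have hd : ‖(w - τ) / ((1 + w) * (1 + τ))‖ ≤ η := by
      rw [norm_div, norm_mul, hn, div_le_iff₀ (by positivity)]
      have h0 : 0 ≤ η := by have := norm_nonneg (w - τ); linarith
      have : 1 / 2 ≤ ‖1 + w‖ * (1 + τ) := by nlinarith
      nlinarith
  · have e : 1 / (1 + w) = ((1 - τ / (1 + τ) : ℝ) : ℂ) - (w - τ) / ((1 + w) * (1 + τ)) := by
      push_cast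
      field_simp
      ring
    have h0 : 0 ≤ 1 - τ / (1 + τ) := by
      rw [sub_nonneg, div_le_one hτ]; linarith
    rw [e]
    refine (norm_sub_le _ _).trans ?_
    rw [Complex.norm_real, Real.norm_of_nonneg h0]
    linarith
  · have e : w / (1 + w) = ((τ / (1 + τ) : ℝ) : ℂ) + (w - τ) / ((1 + w) * (1 + τ)) := by
      push_cast
      field_simp
      ring
    rw [e]
    refine (norm_add_le _ _).trans ?_
    rw [Complex.norm_real, Real.norm_of_nonneg (by positivity)]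
    linarith

open scoped Matrix in
theorem main (Δ : ℕ) (hΔ : 2 ≤ Δ) : ∃ ε : ℝ, 0 < ε ∧ ε ≤ 1 / 2 ∧
    ∀ (V : Type) [Fintype V] [DecidableEq V] [Nonempty V] (G : SimpleGraph V) [DecidableRel G.Adj],
      G.maxDegree ≤ Δ → ∀ w : V → ℂ,
        (∀ x, ∃ τ : ℝ, 0 ≤ τ ∧ τ ≤ 1 / ((Δ : ℝ) - 1) ∧ ‖w x - τ‖ < ε) →
        ∃ h : glauber G w *ᵥ 1 = 1, spr (glauber G w) h < 1 := by
  have hD : (2 : ℝ) ≤ Δ := by exact_mod_cast hΔ
  set c : ℝ := 1 / (6 * (Δ : ℝ) ^ 3) with hc
  have hD2 : (1 : ℝ) ≤ (Δ : ℝ) ^ 2 := one_le_pow₀ (by linarith)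
  have hD3 : (1 : ℝ) ≤ (Δ : ℝ) ^ 3 := one_le_pow₀ (by linarith)
  have hc0 : 0 < c := by positivity
  have hc1 : c ≤ 1 := by rw [hc, div_le_one (by positivity)]; linarith
  have hc2 : c ^ 2 ≤ 1 := pow_le_one₀ hc0.le hc1
  set η : ℝ := c ^ 2 / (48 * (Δ : ℝ) ^ 2) with hη
  have hη0 : 0 < η := by positivity
  have hη1 : η ≤ 1 := by rw [hη, div_le_one (by positivity)]; linarith
  refine ⟨η / 2, by positivity, by linarith, ?_⟩
  intro V _ _ _ G _ hG w hw
  have h := fun x => (hw x).elim fun τ hτ => near_real Δ η τ (w x) hD hη1 hτ.1 hτ.2.1 hτ.2.2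
  refine ⟨glauber_mulVec_one G w fun x => (h x).1, ?_⟩
  refine spr_lt_one w (fun x => (h x).1) (fun A => Real.exp (c / (2 * (Δ : ℝ) ^ 2) * pot G Δ A))
    (fun A => Real.exp_pos _) (1 - c ^ 2 / (8 * (Δ : ℝ) ^ 2)) ?_ ?_ ?_
  · rw [sub_nonneg, div_le_one (by positivity)]; linarith
  · have : 0 < c ^ 2 / (8 * (Δ : ℝ) ^ 2) := by positivity
    linarith
  · intro A x hx
    obtain ⟨u1, u2, h1, h2, h3, h4, h5⟩ := pot_drift G Δ hΔ hG A x hx
    obtain ⟨p, hp0, hp1, ha, hb⟩ := (h x).2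
    have hp1' : p ≤ 1 := hp1.trans (by rw [div_le_one (by linarith)]; linarith)
    have key := exp_mix Δ c p u1 u2 _ _ hD hc0 hc1 hp0 hp1' h1 h2 (h5 p hp0 hp1) ha hb
    set t : ℝ := c / (2 * (Δ : ℝ) ^ 2) with ht
    have ht0 : 0 ≤ t := by positivity
    have e1 : Real.exp (t * pot G Δ (A.erase x)) ≤ Real.exp (t * u1) * Real.exp (t * pot G Δ A) := by
      rw [← Real.exp_add, Real.exp_le_exp]
      nlinarith
    have e2 : Real.exp (t * pot G Δ (A.erase x ∪ G.neighborFinset x)) ≤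
        Real.exp (t * u2) * Real.exp (t * pot G Δ A) := by
      rw [← Real.exp_add, Real.exp_le_exp]
      nlinarith
    calc _ ≤ ‖1 / (1 + w x)‖ * (Real.exp (t * u1) * Real.exp (t * pot G Δ A)) +
          ‖w x / (1 + w x)‖ * (Real.exp (t * u2) * Real.exp (t * pot G Δ A)) := by gcongr
      _ = (‖1 / (1 + w x)‖ * Real.exp (t * u1) + ‖w x / (1 + w x)‖ * Real.exp (t * u2)) *
          Real.exp (t * pot G Δ A) := by ring
      _ ≤ _ := by gcongr

end Pool.Agent.P.MP_eb4d96_pr
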